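import Pool.Agent.H24.BZ.Targets
import Pool.Agent.H59.MR.Dens

/-!
Module VST: the relation with signs for the primes, from the glued signs.
-/

set_option autoImplicit false

namespace Pool.Agent.H54.BZ

open Filter Topology Finset
open Pool.Agent.H24.MR (lam dens FinAddInv)
open Pool.Agent.H24.T2 (Pset rel)
open Pool.Agent.H24.BZ
open Pool.Agent.H59.MR (ratio tendsto_dens finAddInv_dens fai_empty)

/-! ### counting -/

open Classical in
/-- number of the elements of `A` below `n` -/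
noncomputable def cnt (A : Set ℕ) (n : ℕ) : ℝ :=
  (((Finset.range n).filter (fun m => m ∈ A)).card : ℝ)

theorem cnt_nonneg (A : Set ℕ) (n : ℕ) : 0 ≤ cnt A n := by
  unfold cnt
  positivity

variable {U : Ultrafilter ℕ} {N : ℕ → ℕ}

/-- linear inequalities between counts pass to the densities -/
theorem dens_lin (hN : Tendsto N (U : Filter ℕ) atTop) (A A' : Set ℕ) (r s a C : ℝ)
    (h : ∀ᶠ j in (U : Filter ℕ), a * N j ≤ r * cnt A' (N j) + s * cnt A (N j) + C) :
    a ≤ r * dens U N A' + s * dens U N A := by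
  have h0 : Tendsto (fun k => C / (N k : ℝ)) (U : Filter ℕ) (𝓝 0) :=
    (tendsto_const_nhds.div_atTop (tendsto_natCast_atTop_atTop)).comp hN
  have h1 : Tendsto (fun k => r * ratio A' (N k) + s * ratio A (N k) + C / (N k : ℝ))
      (U : Filter ℕ) (𝓝 (r * dens U N A' + s * dens U N A + 0)) :=
    (((tendsto_dens U N A').const_mul r).add ((tendsto_dens U N A).const_mul s)).add h0
  rw [add_zero] at h1
  refine ge_of_tendsto h1 ?_
  filter_upwards [h, hN.eventually (eventually_gt_atTop 0)] with j hj hj0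
  have hn : (0 : ℝ) < N j := by exact_mod_cast hj0
  have h2 : r * ratio A' (N j) + s * ratio A (N j) + C / (N j : ℝ) =
      (r * cnt A' (N j) + s * cnt A (N j) + C) / N j := by
    unfold ratio cnt
    ring
  rw [h2, le_div_iff₀ hn]
  exact hj

/-! ### the relation at the multiples of `p` -/

theorem rel_dvd {k : ℕ} (β : Fin k → ℕ) {p z : ℕ} (hp : p.Prime) (hz : 0 < z) :
    rel β lam p (p * z) = (-1) ^ k * ∏ i, lam (z + β i) := by
  unfold rel
  have e1 : ∀ j : Fin k, lam (p * z + p * β j) = (-1) * lam (z + β j) := by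
    intro j
    rw [← mul_add]
    unfold lam
    rw [ArithmeticFunction.cardFactors_mul hp.ne_zero (by omega),
      ArithmeticFunction.cardFactors_apply_prime hp, pow_add, pow_one]
  rw [Finset.prod_congr rfl fun j _ => e1 j, Finset.prod_mul_distrib, Finset.prod_const,
    card_univ, Fintype.card_fin]

/-- the scale of `p` -/
theorem log_scale {Q m p : ℕ} (hp : p ∈ Pset Q m) : Nat.log 2 (p - 1) = m := by
  unfold Pset at hp
  rw [mem_filter, mem_Ioc] at hp
  obtain ⟨⟨h1, h2⟩, -⟩ := hp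
  have h3 : 0 < 2 ^ m := by positivity
  rw [Nat.log_eq_iff (Or.inr ⟨by norm_num, by omega⟩)]
  omega

theorem scale_mem {Q p : ℕ} (hp : p.Prime) (hQ : p ≡ 1 [MOD Q]) :
    p ∈ Pset Q (Nat.log 2 (p - 1)) := by
  unfold Pset
  have h2 := hp.two_le
  have h3 : 2 ^ Nat.log 2 (p - 1) ≤ p - 1 := Nat.pow_log_le_self 2 (by omega)
  have h4 : p - 1 < 2 ^ (Nat.log 2 (p - 1) + 1) := Nat.lt_pow_succ_log_self (by norm_num) _
  rw [mem_filter, mem_Ioc]
  exact ⟨⟨by omega, by omega⟩, hp, hQ⟩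

/-- the signs at the primes -/
noncomputable def sg (k : ℕ) (B : Finset ℕ) (τ : ℕ → ℕ → ℤ) (p y : ℕ) : ℤ :=
  if Nat.log 2 (p - 1) ∈ B then (-1) ^ k * τ (Nat.log 2 (p - 1)) (y / p) else 0

theorem sg_eq (k : ℕ) {B : Finset ℕ} (τ : ℕ → ℕ → ℤ) {Q m p : ℕ} (hp : p ∈ Pset Q m)
    (hm : m ∈ B) (y : ℕ) : sg k B τ p y = (-1) ^ k * τ m (y / p) := by
  unfold sg
  rw [log_scale hp, if_pos hm]

theorem neg_pow_ne (k : ℕ) : ((-1 : ℤ) ^ k) ≠ 0 := pow_ne_zero _ (by norm_num)

theorem sg_ne (k : ℕ) {B : Finset ℕ} (τ : ℕ → ℕ → ℤ) {Q m p : ℕ} (hp : p ∈ Pset Q m)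
    (hm : m ∈ B) (y : ℕ) : sg k B τ p y ≠ 0 ↔ τ m (y / p) ≠ 0 := by
  rw [sg_eq k τ hp hm, mul_ne_zero_iff]
  exact ⟨fun h => h.2, fun h => ⟨neg_pow_ne k, h⟩⟩

/-- changes of the sign -/
theorem cnt_change (k : ℕ) {B : Finset ℕ} (τ : ℕ → ℕ → ℤ) {Q m p : ℕ} (hp : p ∈ Pset Q m)
    (hm : m ∈ B) (n : ℕ) :
    cnt {y | sg k B τ p y ≠ sg k B τ p (y + 1)} n ≤
      (((Finset.Icc 1 (n / 2 ^ m)).filter (fun z => τ m z ≠ τ m (z + 1))).card : ℝ) + 1 := by
  classical
  have hp' := hp
  unfold Pset at hp'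
  rw [mem_filter, mem_Ioc] at hp'
  obtain ⟨⟨h1, h2⟩, h3, -⟩ := hp'
  unfold cnt
  have h4 : ((Finset.range n).filter
      (fun y => y ∈ {y | sg k B τ p y ≠ sg k B τ p (y + 1)})).card ≤
      (insert 0 ((Finset.Icc 1 (n / 2 ^ m)).filter
        (fun z => τ m z ≠ τ m (z + 1)))).card := by
    have h5 : ∀ y ∈ (Finset.range n).filter
        (fun y => y ∈ {y | sg k B τ p y ≠ sg k B τ p (y + 1)}),
        (y + 1) / p = y / p + 1 ∧ p ∣ y + 1 ∧ τ m (y / p) ≠ τ m (y / p + 1) := by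
      intro y hy
      rw [mem_filter, Set.mem_ofPred_eq, sg_eq k τ hp hm, sg_eq k τ hp hm] at hy
      obtain ⟨-, hy⟩ := hy
      by_cases hd : p ∣ y + 1
      · have h6 : (y + 1) / p = y / p + 1 := Nat.succ_div_of_dvd hd
        rw [h6] at hy
        exact ⟨h6, hd, fun h => hy (by rw [h])⟩
      · exfalso
        rw [Nat.succ_div_of_not_dvd hd] at hy
        exact hy rfl
    refine Finset.card_le_card_of_injOn (fun y => y / p) ?_ ?_
    · intro y hy
      obtain ⟨h6, h7, h8⟩ := h5 y hy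
      have hy' := (mem_filter.1 hy).1
      rw [mem_range] at hy'
      simp only [mem_coe, mem_insert, mem_filter, mem_Icc]
      rcases Nat.eq_zero_or_pos (y / p) with h | h
      · exact Or.inl h
      · refine Or.inr ⟨⟨h, ?_⟩, h8⟩
        calc y / p ≤ n / p := Nat.div_le_div_right hy'.le
          _ ≤ n / 2 ^ m := Nat.div_le_div_left h1.le (by positivity)
    · intro y hy y' hy' he
      obtain ⟨h6, h7, -⟩ := h5 y hy
      obtain ⟨h6', h7', -⟩ := h5 y' hy'
      have he' : y / p = y' / p := he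
      have e1 : p * ((y + 1) / p) = y + 1 := Nat.mul_div_cancel' h7
      have e2 : p * ((y' + 1) / p) = y' + 1 := Nat.mul_div_cancel' h7'
      rw [h6, he', ← h6', e2] at e1
      omega
  have h9 : (insert 0 ((Finset.Icc 1 (n / 2 ^ m)).filter
      (fun z => τ m z ≠ τ m (z + 1)))).card ≤ ((Finset.Icc 1 (n / 2 ^ m)).filter
      (fun z => τ m z ≠ τ m (z + 1))).card + 1 := Finset.card_insert_le _ _
  have h10 := h4.trans h9
  exact_mod_cast h10

/-- the support of the sign -/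
theorem cnt_supp (k : ℕ) {B : Finset ℕ} (τ : ℕ → ℕ → ℤ) {Q m p : ℕ} (hp : p ∈ Pset Q m)
    (hm : m ∈ B) (n : ℕ) :
    p * ((((Finset.Icc 1 (n / 2 ^ (m + 1))).filter (fun z => τ m z ≠ 0)).card : ℝ) - 1) ≤
      cnt {y | sg k B τ p y ≠ 0} n := by
  classical
  have hp' := hp
  unfold Pset at hp'
  rw [mem_filter, mem_Ioc] at hp'
  obtain ⟨⟨h1, h2⟩, h3, -⟩ := hp'
  have hp0 := h3.pos
  set S := (Finset.Icc 1 (n / 2 ^ (m + 1))).filter (fun z => τ m z ≠ 0) with hS
  set S' := S.erase (n / 2 ^ (m + 1)) with hS'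
  have h4 : (S.card : ℝ) - 1 ≤ S'.card := by
    have h4 : S.card - 1 ≤ S'.card := Finset.pred_card_le_card_erase
    have h4' : S.card ≤ S'.card + 1 := by omega
    have h5 : (S.card : ℝ) ≤ S'.card + 1 := by exact_mod_cast h4'
    linarith
  have h5' : (S' ×ˢ Finset.range p).card ≤ ((Finset.range n).filter
      (fun y => y ∈ {y | sg k B τ p y ≠ 0})).card := by
    refine Finset.card_le_card_of_injOn (fun x => p * x.1 + x.2) ?_ ?_
    · rintro ⟨z, r⟩ hx
      rw [mem_coe, mem_product, mem_range] at hx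
      obtain ⟨hz, hr⟩ := hx
      have hr' : r < p := hr
      rw [hS', mem_erase, hS, mem_filter, mem_Icc] at hz
      obtain ⟨hz1, ⟨hz2, hz3⟩, hz4⟩ := hz
      have hz5 : z + 1 ≤ n / 2 ^ (m + 1) := by
        have : z ≠ n / 2 ^ (m + 1) := hz1
        have : z ≤ n / 2 ^ (m + 1) := hz3
        omega
      have hz6 : p * (z + 1) ≤ n := by
        calc p * (z + 1) ≤ 2 ^ (m + 1) * (n / 2 ^ (m + 1)) := Nat.mul_le_mul h2 hz5
          _ ≤ n := Nat.mul_div_le _ _
      rw [mem_coe, mem_filter, mem_range, Set.mem_ofPred_eq, sg_ne k τ hp hm]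
      refine ⟨?_, ?_⟩
      · show p * z + r < n
        have : p * (z + 1) = p * z + p := by ring
        omega
      · show τ m ((p * z + r) / p) ≠ 0
        rw [Nat.mul_add_div hp0, Nat.div_eq_of_lt hr', add_zero]
        exact hz4
    · rintro ⟨z, r⟩ hx ⟨z', r'⟩ hx' he
      rw [mem_coe, mem_product, mem_range] at hx hx'
      have hr : r < p := hx.2
      have hr' : r' < p := hx'.2
      have he' : p * z + r = p * z' + r' := he
      have e1 : (p * z + r) / p = z := by
        rw [Nat.mul_add_div hp0, Nat.div_eq_of_lt hr, add_zero]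
      have e2 : (p * z' + r') / p = z' := by
        rw [Nat.mul_add_div hp0, Nat.div_eq_of_lt hr', add_zero]
      rw [he', e2] at e1
      subst e1
      have : r = r' := by omega
      rw [this]
  have h5 : ((S' ×ˢ Finset.range p).card : ℝ) ≤ cnt {y | sg k B τ p y ≠ 0} n := by
    unfold cnt
    exact_mod_cast h5'
  rw [card_product, card_range] at h5
  push_cast at h5
  have hp1 : (0 : ℝ) < p := by exact_mod_cast hp0
  calc p * ((S.card : ℝ) - 1) ≤ p * S'.card := by gcongr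
    _ = S'.card * p := by ring
    _ ≤ _ := h5

/-- the errors -/
theorem cnt_err {k : ℕ} (β : Fin k → ℕ) {B : Finset ℕ} (τ : ℕ → ℕ → ℤ) {Q m p : ℕ}
    (hp : p ∈ Pset Q m) (hm : m ∈ B) (c n : ℕ) :
    cnt {y | y ≡ c [MOD Q] ∧ p ∣ y ∧ sg k B τ p y ≠ 0 ∧
      rel β lam p y ≠ (sg k B τ p y : ℝ)} n ≤
      (((Finset.Icc 1 (n / 2 ^ m)).filter (fun z => z ≡ c [MOD Q] ∧ τ m z ≠ 0 ∧
        ∏ i, lam (z + β i) ≠ (τ m z : ℝ))).card : ℝ) + 1 := by
  classical
  have hp' := hp
  unfold Pset at hp'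
  rw [mem_filter, mem_Ioc] at hp'
  obtain ⟨⟨h1, h2⟩, h3, hQ⟩ := hp'
  have hp0 := h3.pos
  unfold cnt
  have h4 : ((Finset.range n).filter (fun y => y ∈ {y | y ≡ c [MOD Q] ∧ p ∣ y ∧
      sg k B τ p y ≠ 0 ∧ rel β lam p y ≠ (sg k B τ p y : ℝ)})).card ≤
      (insert 0 ((Finset.Icc 1 (n / 2 ^ m)).filter (fun z => z ≡ c [MOD Q] ∧ τ m z ≠ 0 ∧
        ∏ i, lam (z + β i) ≠ (τ m z : ℝ)))).card := by
    refine Finset.card_le_card_of_injOn (fun y => y / p) ?_ ?_
    · intro y hy
      rw [mem_coe, mem_filter, mem_range, Set.mem_ofPred_eq] at hy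
      obtain ⟨hyn, hyc, ⟨z, rfl⟩, hys, hyr⟩ := hy
      have e1 : p * z / p = z := Nat.mul_div_cancel_left z hp0
      rw [sg_ne k τ hp hm, e1] at hys
      rw [sg_eq k τ hp hm, e1] at hyr
      simp only [mem_coe, mem_insert, mem_filter, mem_Icc, e1]
      rcases Nat.eq_zero_or_pos z with h | h
      · exact Or.inl h
      · refine Or.inr ⟨⟨h, ?_⟩, ?_, hys, ?_⟩
        · calc z = p * z / p := e1.symm
            _ ≤ n / p := Nat.div_le_div_right hyn.le
            _ ≤ n / 2 ^ m := Nat.div_le_div_left h1.le (by positivity)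
        · have h5 : p * z ≡ 1 * z [MOD Q] := Nat.ModEq.mul_right z hQ
          rw [one_mul] at h5
          exact h5.symm.trans hyc
        · intro h6
          apply hyr
          rw [rel_dvd β h3 h, h6]
          push_cast
          ring
    · intro y hy y' hy' he
      rw [mem_coe, mem_filter, mem_range, Set.mem_ofPred_eq] at hy hy'
      have he' : y / p = y' / p := he
      rw [← Nat.mul_div_cancel' hy.2.2.1, he', Nat.mul_div_cancel' hy'.2.2.1]
  have h10 := h4.trans (Finset.card_insert_le _ _)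
  exact_mod_cast h10

theorem pf_VST : T_VST := by
  intro k Q c β δ η B U N τ hQ hδ hη hG
  obtain ⟨hN, hτ, hG⟩ := hG
  have hF : FinAddInv (dens U N) := finAddInv_dens hN
  have hQR : (0 : ℝ) < Q := by exact_mod_cast hQ
  refine ⟨sg k B τ, hN, ?_, ?_, ?_, ?_⟩
  · intro p y
    unfold sg
    split_ifs with h
    · rcases neg_one_pow_eq_or ℤ k with h1 | h1 <;> rw [h1] <;>
        rcases hτ (Nat.log 2 (p - 1)) (y / p) with h2 | h2 | h2 <;> rw [h2] <;> simp
    · exact Or.inl rfl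
  · intro p hp hpQ
    by_cases hm : Nat.log 2 (p - 1) ∈ B
    · have hps := scale_mem hp hpQ
      set m := Nat.log 2 (p - 1) with hmd
      apply le_antisymm _ (hF.nonneg _)
      apply le_of_forall_pos_le_add
      intro ζ hζ
      have h1 : ∀ᶠ j in (U : Filter ℕ), -ζ * N j ≤ 0 * cnt ∅ (N j) +
          (-1) * cnt {y | sg k B τ p y ≠ sg k B τ p (y + 1)} (N j) + 1 := by
        filter_upwards [hG m hm ζ hζ] with j hj
        have h2 := cnt_change k τ hps hm (N j)
        have h3 := hj.1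
        linarith
      have h2 := dens_lin hN _ _ _ _ _ _ h1
      linarith
    · have h1 : {y | sg k B τ p y ≠ sg k B τ p (y + 1)} = ∅ := by
        ext y
        simp [sg, hm]
      rw [h1]
      exact fai_empty hF
  · intro m hm p hp
    have hp' := hp
    unfold Pset at hp'
    rw [mem_filter, mem_Ioc] at hp'
    obtain ⟨⟨h1, h2⟩, h3, -⟩ := hp'
    have hp1 : (0 : ℝ) < p := by exact_mod_cast h3.pos
    have h2' : (p : ℝ) ≤ 2 ^ (m + 1) := by exact_mod_cast h2
    have h1' : (2 : ℝ) ^ m ≤ p := by exact_mod_cast h1.le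
    apply le_of_forall_pos_le_add
    intro ζ hζ
    have h4 : ∀ᶠ j in (U : Filter ℕ), (δ / 2 - ζ) * N j ≤ 0 * cnt ∅ (N j) +
        1 * cnt {y | sg k B τ p y ≠ 0} (N j) + p := by
      filter_upwards [hG m hm (ζ / p) (by positivity)] with j hj
      have h5 := cnt_supp k τ hp hm (N j)
      have h6 := hj.2.1
      have h7 : (p : ℝ) * ((δ / 2 ^ (m + 1) - ζ / p) * N j) ≤
          p * (((Finset.Icc 1 (N j / 2 ^ (m + 1))).filter (fun z => τ m z ≠ 0)).card : ℝ) := by
        gcongr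
      have h8 : (p : ℝ) * ((δ / 2 ^ (m + 1) - ζ / p) * N j) =
          (δ * (p / 2 ^ (m + 1)) - ζ) * N j := by
        field_simp
      have h9 : (1 : ℝ) / 2 ≤ p / 2 ^ (m + 1) := by
        rw [div_le_div_iff₀ (by norm_num) (by positivity), pow_succ]
        linarith
      have h10 : (δ / 2 - ζ) * N j ≤ (δ * (p / 2 ^ (m + 1)) - ζ) * N j := by
        have : δ / 2 ≤ δ * (p / 2 ^ (m + 1)) := by
          calc δ / 2 = δ * (1 / 2) := by ring
            _ ≤ _ := by gcongr
        gcongr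
      linarith
    have h5 := dens_lin hN _ _ _ _ _ _ h4
    linarith
  · intro m hm p hp
    have hp' := hp
    unfold Pset at hp'
    rw [mem_filter, mem_Ioc] at hp'
    obtain ⟨⟨h1, h2⟩, h3, -⟩ := hp'
    have hp1 : (0 : ℝ) < p := by exact_mod_cast h3.pos
    apply le_of_forall_pos_le_add
    intro ζ hζ
    have h4 : ∀ᶠ j in (U : Filter ℕ), -ζ * N j ≤
        (η / (p * Q)) * cnt {y | sg k B τ p y ≠ 0} (N j) +
        (-1) * cnt {y | y ≡ c [MOD Q] ∧ p ∣ y ∧ sg k B τ p y ≠ 0 ∧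
          rel β lam p y ≠ (sg k B τ p y : ℝ)} (N j) + (η / Q + 1) := by
      filter_upwards [hG m hm ζ hζ] with j hj
      have h5 := cnt_supp k τ hp hm (N j)
      have h6 := cnt_err β τ hp hm c (N j)
      have h7 := hj.2.2
      set S := (((Finset.Icc 1 (N j / 2 ^ (m + 1))).filter (fun z => τ m z ≠ 0)).card : ℝ)
        with hS
      set D := cnt {y | sg k B τ p y ≠ 0} (N j) with hD
      have h8 : η / Q * (S - 1) ≤ η / (p * Q) * D := by
        have h9 : η / (p * Q) * (p * (S - 1)) ≤ η / (p * Q) * D :=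
          mul_le_mul_of_nonneg_left h5 (by positivity)
        have h10 : η / (p * Q) * (p * (S - 1)) = η / Q * (S - 1) := by
          field_simp
        rw [← h10]
        exact h9
      have h11 : η / Q * (S - 1) = η / Q * S - η / Q := by ring
      linarith
    have h5 := dens_lin hN _ _ _ _ _ _ h4
    linarith

end Pool.Agent.H54.BZ
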